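import Mathlib

/-!
# MP_a35cac_co: spin models in formally self-dual, exactly triply regular schemes

1. The Bose–Mesner algebra of every symmetric association scheme contains a spin model (a Potts
   model `α I + β (J - I)`).  So the answer to Q1, read literally, is yes.
2. The answer becomes no if the spin model is required to see the scheme.  For `n ≥ 3` let `S_n` be
   the wreath product `K_n ≀ K_n`: `n ^ 2` points in `n` blocks of size `n`, with the relations
   `equal`, `different, same block`, `different blocks`.  It is formally self-dual and exactly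
   triply regular, but every spin model in its Bose–Mesner algebra lies in the span of `I` and `J`
   (it is a Potts model), and its Nomura algebra does not contain the Bose–Mesner algebra.

Method for 2.  If `W` takes the values `t₀, t₁, t₂` on the three relations, the differences of the
type III equations for `(a, b, c)` and `(a, c, c)` (three points of one block) and for `(a, a, o)`
and `(a, b, o)` (`o` in another block) give `t₁ (t₀ - t₁) = D = t₂ (t₀ - t₁)`.
-/

set_option autoImplicit false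

namespace Pool.Agent.Results.MP_a35cac_co.PottsAndWreath

open Finset

variable {X : Type} [Fintype X] [DecidableEq X]

/-- A symmetric association scheme with `d` classes on `X`: the relation `R_i` is
`{(x, y) | rel x y = i}`. -/
structure Scheme (X : Type) [Fintype X] [DecidableEq X] (d : ℕ) where
  rel : X → X → Fin (d + 1)
  nonempty : ∀ i, ∃ x y, rel x y = i
  diag : ∀ x y, rel x y = 0 ↔ x = y
  symm : ∀ x y, rel x y = rel y x
  p : Fin (d + 1) → Fin (d + 1) → Fin (d + 1) → ℕ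
  inter : ∀ i j x y, (univ.filter fun z => rel x z = i ∧ rel z y = j).card = p i j (rel x y)

/-- The adjacency matrix of `R_i`. -/
def Scheme.A {d : ℕ} (S : Scheme X d) (i : Fin (d + 1)) : Matrix X X ℂ :=
  fun x y => if S.rel x y = i then 1 else 0

/-- The Bose–Mesner algebra. -/
def Scheme.BM {d : ℕ} (S : Scheme X d) : Submodule ℂ (Matrix X X ℂ) :=
  Submodule.span ℂ (Set.range S.A)

/-- The all-ones matrix. -/
def J (X : Type) : Matrix X X ℂ := fun _ _ => 1

/-- Formal self-duality: the adjacency matrices (`A 0 = I` first) and the primitive idempotents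
`E j` (`E 0 = J / |X|` first) can be ordered such that `A_i = ∑ P_ji E_j` and
`E_i = |X|⁻¹ ∑ P_ji A_j` with the same matrix `P`. -/
def Scheme.FormallySelfDual {d : ℕ} (S : Scheme X d) : Prop :=
  ∃ (σ : Equiv.Perm (Fin (d + 1))) (E : Fin (d + 1) → Matrix X X ℂ)
    (P : Matrix (Fin (d + 1)) (Fin (d + 1)) ℂ),
    σ 0 = 0 ∧ E 0 = (Fintype.card X : ℂ)⁻¹ • J X ∧ (∀ i, E i ≠ 0) ∧
    (∀ i j, E i * E j = if i = j then E i else 0) ∧ ∑ i, E i = 1 ∧
    (∀ i, S.A (σ i) = ∑ j, P j i • E j) ∧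
    (∀ i, E i = (Fintype.card X : ℂ)⁻¹ • ∑ j, P j i • S.A (σ j))

/-- The tensor `Δ(L, M, N)`. -/
def delta (L M N : Matrix X X ℂ) : X → X → X → ℂ := fun x y z => L x z * M x y * N y z

/-- The tensor `Y(L, M, N)`. -/
def star (L M N : Matrix X X ℂ) : X → X → X → ℂ := fun x y z => ∑ u, L x u * M y u * N z u

/-- `Δ(𝔸)` -/
def Scheme.Delta {d : ℕ} (S : Scheme X d) : Submodule ℂ (X → X → X → ℂ) :=
  Submodule.span ℂ {T | ∃ L ∈ S.BM, ∃ M ∈ S.BM, ∃ N ∈ S.BM, T = delta L M N}

/-- `Y(𝔸)` -/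
def Scheme.Star {d : ℕ} (S : Scheme X d) : Submodule ℂ (X → X → X → ℂ) :=
  Submodule.span ℂ {T | ∃ L ∈ S.BM, ∃ M ∈ S.BM, ∃ N ∈ S.BM, T = star L M N}

/-- `Δ(𝔸) = Y(𝔸)` -/
def Scheme.ExactlyTriplyRegular {d : ℕ} (S : Scheme X d) : Prop := S.Delta = S.Star

/-- A spin model on `X`. -/
def IsSpinModel (W : Matrix X X ℂ) : Prop :=
  (∀ a b, W a b = W b a) ∧ (∀ a b, W a b ≠ 0) ∧
  (∀ a b, ∑ x, W a x / W b x = if a = b then (Fintype.card X : ℂ) else 0) ∧
  ∃ D : ℂ, D ^ 2 = (Fintype.card X : ℂ) ∧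
    ∀ a b c, ∑ x, W a x * W b x / W c x = D * (W a b / (W a c * W b c))

/-- The Nomura algebra `N(W)`: the matrices having all vectors `(W x b / W x c)_x` as
eigenvectors. -/
def Nomura (W : Matrix X X ℂ) : Set (Matrix X X ℂ) :=
  {M | ∀ b c, ∃ μ : ℂ, M.mulVec (fun x => W x b / W x c) = μ • fun x => W x b / W x c}

/-! ### Potts models -/

lemma J_mem {d : ℕ} (S : Scheme X d) : J X ∈ S.BM := by
  have h : J X = ∑ i, S.A i := by
    ext x y
    rw [Matrix.sum_apply]
    simp [J, Scheme.A]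
  rw [h]
  exact Submodule.sum_mem _ fun i _ => Submodule.subset_span ⟨i, rfl⟩

lemma one_mem {d : ℕ} (S : Scheme X d) : (1 : Matrix X X ℂ) ∈ S.BM := by
  have h : (1 : Matrix X X ℂ) = S.A 0 := by
    ext x y
    by_cases hxy : x = y
    · subst hxy
      have := (S.diag x x).2 rfl
      simp [Scheme.A, this]
    · have : S.rel x y ≠ 0 := fun h => hxy ((S.diag x y).1 h)
      simp [Scheme.A, hxy, this]
  rw [h]
  exact Submodule.subset_span ⟨0, rfl⟩

/-- indicator -/
def e (a x : X) : ℂ := if x = a then 1 else 0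

lemma sum_e (a : X) : ∑ x, e a x = 1 := by simp [e]

lemma sum_e2 (a b : X) : ∑ x, e a x * e b x = if a = b then 1 else 0 := by
  simp only [e, mul_ite, mul_one, mul_zero]
  rw [Finset.sum_ite_eq' univ b]
  simp [eq_comm]

lemma sum_e3 (a b c : X) : ∑ x, e a x * e b x * e c x = if a = b ∧ b = c then 1 else 0 := by
  by_cases hab : a = b
  · subst hab
    have h : ∀ x, e a x * e a x * e c x = e a x * e c x := by
      intro x
      unfold e
      split_ifs <;> simp
    rw [Finset.sum_congr rfl fun x _ => h x, sum_e2]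
    simp
  · have h : ∀ x, e a x * e b x * e c x = 0 := by
      intro x
      unfold e
      by_cases h1 : x = a
      · have h2 : x ≠ b := fun h => hab (h1.symm.trans h)
        simp [h2]
      · simp [h1]
    rw [Finset.sum_congr rfl fun x _ => h x]
    simp [hab]

/-- sums of products of functions which are constant off one point -/
lemma sum_prod3 (a b c : X) (k l k' l' : ℂ) :
    ∑ x, (k + l * e a x) * (k + l * e b x) * (k' + l' * e c x) =
      k ^ 2 * k' * (Fintype.card X : ℂ) + k ^ 2 * l' + 2 * k * l * k' +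
      k * l * l' * ((if a = c then 1 else 0) + (if b = c then 1 else 0)) +
      l ^ 2 * k' * (if a = b then 1 else 0) + l ^ 2 * l' * (if a = b ∧ b = c then 1 else 0) := by
  have h : ∀ x, (k + l * e a x) * (k + l * e b x) * (k' + l' * e c x) =
      k ^ 2 * k' + k ^ 2 * l' * e c x + k * l * k' * e a x + k * l * k' * e b x +
      k * l * l' * (e a x * e c x) + k * l * l' * (e b x * e c x) +
      l ^ 2 * k' * (e a x * e b x) + l ^ 2 * l' * (e a x * e b x * e c x) := by
    intro x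
    ring
  rw [Finset.sum_congr rfl fun x _ => h x]
  simp only [Finset.sum_add_distrib, ← Finset.mul_sum, sum_e, sum_e2, sum_e3, Finset.sum_const,
    Finset.card_univ, nsmul_eq_mul]
  ring

/-- The Potts model. -/
theorem potts [Nonempty X] : ∃ α β : ℂ, IsSpinModel (α • (1 : Matrix X X ℂ) + β • J X) := by
  obtain ⟨D, hD⟩ := IsAlgClosed.exists_pow_nat_eq (Fintype.card X : ℂ) (n := 2) (by norm_num)
  obtain ⟨w, hw⟩ := IsAlgClosed.exists_pow_nat_eq (D ^ 2 - 4) (n := 2) (by norm_num)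
  obtain ⟨u, hu⟩ := IsAlgClosed.exists_pow_nat_eq ((-D + w) / 2) (n := 2) (by norm_num)
  have hu4 : u ^ 4 + D * u ^ 2 + 1 = 0 := by
    have : u ^ 4 = (u ^ 2) ^ 2 := by ring
    rw [this, hu]
    linear_combination (1 / 4) * hw
  have hu0 : u ≠ 0 := by
    rintro rfl
    norm_num at hu4
  have hDu : D = -(u ^ 4 + 1) / u ^ 2 := by
    rw [eq_div_iff (pow_ne_zero 2 hu0)]
    linear_combination hu4
  have hN : (Fintype.card X : ℂ) = (u ^ 4 + 1) ^ 2 / u ^ 4 := by
    rw [← hD, hDu]
    field_simp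
  have hN0 : (Fintype.card X : ℂ) ≠ 0 := by
    exact_mod_cast Fintype.card_ne_zero
  -- values
  set α : ℂ := -u ^ 3 with hα
  set β : ℂ := u⁻¹ with hβ
  have hα0 : α ≠ 0 := neg_ne_zero.2 (pow_ne_zero 3 hu0)
  have hβ0 : β ≠ 0 := inv_ne_zero hu0
  refine ⟨α - β, β, ?_⟩
  have hW : ∀ a x : X, ((α - β) • (1 : Matrix X X ℂ) + β • J X) a x = β + (α - β) * e a x := by
    intro a x
    simp only [Matrix.add_apply, Matrix.smul_apply, J, smul_eq_mul, mul_one, Matrix.one_apply, e]
    by_cases h : a = x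
    · subst h; simp
    · rw [if_neg h, if_neg (Ne.symm h)]; ring
  have hWinv : ∀ a x : X, (β + (α - β) * e a x)⁻¹ = β⁻¹ + (α⁻¹ - β⁻¹) * e a x := by
    intro a x
    unfold e
    split_ifs <;> simp
  have hWne : ∀ a x : X, β + (α - β) * e a x ≠ 0 := by
    intro a x
    unfold e
    split_ifs
    · simpa using hα0
    · simpa using hβ0
  refine ⟨?_, ?_, ?_, D, hD, ?_⟩
  · intro a b
    rw [hW, hW]
    simp only [e, eq_comm]
  · intro a b
    rw [hW]
    exact hWne a b
  · intro a b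
    have h2 : ∀ x, ((α - β) • (1 : Matrix X X ℂ) + β • J X) a x /
        ((α - β) • (1 : Matrix X X ℂ) + β • J X) b x =
        1 + β * (α⁻¹ - β⁻¹) * e b x + (α - β) * β⁻¹ * e a x +
          (α - β) * (α⁻¹ - β⁻¹) * (e a x * e b x) := by
      intro x
      rw [hW, hW, div_eq_mul_inv, hWinv]
      have : β * β⁻¹ = 1 := mul_inv_cancel₀ hβ0
      linear_combination this
    rw [Finset.sum_congr rfl fun x _ => h2 x]
    simp only [Finset.sum_add_distrib, ← Finset.mul_sum, sum_e, sum_e2, Finset.sum_const,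
      Finset.card_univ, nsmul_eq_mul]
    split_ifs with hab
    · field_simp
      ring
    · rw [hN, hα, hβ]
      field_simp
      ring
  · intro a b c
    have h1 : ∀ x, ((α - β) • (1 : Matrix X X ℂ) + β • J X) a x *
        ((α - β) • (1 : Matrix X X ℂ) + β • J X) b x /
        ((α - β) • (1 : Matrix X X ℂ) + β • J X) c x =
        (β + (α - β) * e a x) * (β + (α - β) * e b x) * (β⁻¹ + (α⁻¹ - β⁻¹) * e c x) := by
      intro x
      rw [hW, hW, hW, div_eq_mul_inv, hWinv]
    rw [Finset.sum_congr rfl fun x _ => h1 x, sum_prod3, hW, hW, hW, hN, hDu, hα, hβ]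
    unfold e
    by_cases hab : a = b
    · subst hab
      by_cases hac : a = c
      · subst hac
        simp only [if_true, and_self]
        field_simp
        ring
      · have hca : c ≠ a := Ne.symm hac
        simp only [hac, hca, if_true, if_false, and_false]
        field_simp
        ring
    · have hba : b ≠ a := Ne.symm hab
      by_cases hac : a = c
      · subst hac
        simp only [hab, hba, if_true, if_false, false_and]
        field_simp
        ring
      · have hca : c ≠ a := Ne.symm hac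
        by_cases hbc : b = c
        · subst hbc
          simp only [hab, hba, if_true, if_false, false_and]
          field_simp
          ring
        · have hcb : c ≠ b := Ne.symm hbc
          simp only [hab, hba, hac, hca, hbc, hcb, if_false, false_and]
          field_simp
          ring

/-! ### The wreath product `K_n ≀ K_n` -/

section wreath

/-- The points: `n` blocks of size `n`. -/
abbrev Pt (n : ℕ) : Type := Fin n × Fin n

/-- The relation between two points. -/
def wrel (n : ℕ) (x y : Pt n) : Fin 3 := if x = y then 0 else if x.1 = y.1 then 1 else 2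

/-- The matrix of the equivalence relation `same block`. -/
def Bl (n : ℕ) : Matrix (Pt n) (Pt n) ℂ := fun x y => if x.1 = y.1 then 1 else 0

/-- The adjacency matrices. -/
def Aw (n : ℕ) (i : Fin 3) : Matrix (Pt n) (Pt n) ℂ := fun x y => if wrel n x y = i then 1 else 0

lemma Aw0 (n : ℕ) : Aw n 0 = 1 := by
  ext x y
  unfold Aw wrel
  by_cases h : x = y
  · subst h; simp
  · by_cases h1 : x.1 = y.1 <;> simp [h, h1]

lemma Aw1 (n : ℕ) : Aw n 1 = Bl n - 1 := by
  ext x y
  rw [Matrix.sub_apply]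
  unfold Aw wrel Bl
  by_cases h : x = y
  · subst h; simp
  · by_cases h1 : x.1 = y.1 <;> simp [h, h1]

lemma Aw2 (n : ℕ) : Aw n 2 = J (Pt n) - Bl n := by
  ext x y
  rw [Matrix.sub_apply]
  unfold Aw wrel Bl J
  by_cases h : x = y
  · subst h; simp
  · by_cases h1 : x.1 = y.1 <;> simp [h, h1]

lemma Bl_mul_Bl (n : ℕ) : Bl n * Bl n = (n : ℂ) • Bl n := by
  ext x y
  rw [Matrix.mul_apply, Fintype.sum_prod_type, Matrix.smul_apply]
  have h : ∀ i : Fin n, ∑ j : Fin n, Bl n x (i, j) * Bl n (i, j) y =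
      if x.1 = i then (if i = y.1 then (n : ℂ) else 0) else 0 := by
    intro i
    unfold Bl
    simp only
    split_ifs <;> simp
  rw [Finset.sum_congr rfl fun i _ => h i]
  simp [Bl]

lemma Bl_mul_J (n : ℕ) : Bl n * J (Pt n) = (n : ℂ) • J (Pt n) := by
  ext x y
  rw [Matrix.mul_apply, Fintype.sum_prod_type, Matrix.smul_apply]
  have h : ∀ i : Fin n, ∑ j : Fin n, Bl n x (i, j) * J (Pt n) (i, j) y =
      if x.1 = i then (n : ℂ) else 0 := by
    intro i
    unfold Bl J
    simp only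
    split_ifs <;> simp
  rw [Finset.sum_congr rfl fun i _ => h i]
  simp [J]

lemma J_mul_Bl (n : ℕ) : J (Pt n) * Bl n = (n : ℂ) • J (Pt n) := by
  ext x y
  rw [Matrix.mul_apply, Fintype.sum_prod_type]
  simp [Bl, J]

lemma J_mul_J (n : ℕ) : J (Pt n) * J (Pt n) = ((n : ℂ) ^ 2) • J (Pt n) := by
  ext x y
  rw [Matrix.mul_apply]
  simp [J, sq]

/-- The intersection numbers. -/
def wp (n : ℕ) : Fin 3 → Fin 3 → Fin 3 → ℕ :=
  ![![![1, 0, 0], ![0, 1, 0], ![0, 0, 1]],
    ![![0, 1, 0], ![n - 1, n - 2, 0], ![0, 0, n - 1]],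
    ![![0, 0, 1], ![0, 0, n - 1], ![n ^ 2 - n, n ^ 2 - n, n ^ 2 - 2 * n]]]

lemma Aw_mul (n : ℕ) (hn : 3 ≤ n) (i j : Fin 3) :
    Aw n i * Aw n j = ∑ k, (wp n i j k : ℂ) • Aw n k := by
  have c1 : ((n - 1 : ℕ) : ℂ) = n - 1 := by rw [Nat.cast_sub (by omega)]; simp
  have c2 : ((n - 2 : ℕ) : ℂ) = n - 2 := by rw [Nat.cast_sub (by omega)]; simp
  have c3 : ((n ^ 2 - n : ℕ) : ℂ) = n ^ 2 - n := by
    rw [Nat.cast_sub (by nlinarith)]; simp
  have c4 : ((n ^ 2 - 2 * n : ℕ) : ℂ) = n ^ 2 - 2 * n := by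
    rw [Nat.cast_sub (by nlinarith)]; simp
  rw [Fin.sum_univ_three]
  fin_cases i <;> fin_cases j <;>
    simp only [wp, Aw0, Aw1, Aw2, Fin.zero_eta, Fin.mk_one, Fin.reduceFinMk, Matrix.cons_val_zero,
      Matrix.cons_val_one, Matrix.cons_val, sub_mul, mul_sub, one_mul, mul_one, Bl_mul_Bl,
      Bl_mul_J, J_mul_Bl, J_mul_J, c1, c2, c3, c4, Nat.cast_zero, Nat.cast_one] <;>
    module

lemma inter_w (n : ℕ) (hn : 3 ≤ n) (i j : Fin 3) (x y : Pt n) :
    (univ.filter fun z => wrel n x z = i ∧ wrel n z y = j).card = wp n i j (wrel n x y) := by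
  have h1 : ((univ.filter fun z => wrel n x z = i ∧ wrel n z y = j).card : ℂ) =
      (Aw n i * Aw n j) x y := by
    rw [Matrix.mul_apply, Finset.card_filter]
    push_cast
    apply Finset.sum_congr rfl
    intro z _
    unfold Aw
    by_cases h : wrel n x z = i <;> by_cases h' : wrel n z y = j <;> simp [h, h']
  rw [Aw_mul n hn, Matrix.sum_apply] at h1
  have h2 : ∑ k, ((wp n i j k : ℂ) • Aw n k) x y = wp n i j (wrel n x y) := by
    simp only [Matrix.smul_apply, Aw, smul_eq_mul, mul_ite, mul_one, mul_zero]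
    simp
  rw [h2] at h1
  exact_mod_cast h1

/-- The scheme `K_n ≀ K_n`, for `n ≥ 3`. -/
def W (n : ℕ) (hn : 3 ≤ n) : Scheme (Pt n) 2 where
  rel := wrel n
  nonempty := by
    intro i
    have h0 : (0 : ℕ) < n := by omega
    have h1 : (1 : ℕ) < n := by omega
    fin_cases i
    · exact ⟨(⟨0, h0⟩, ⟨0, h0⟩), (⟨0, h0⟩, ⟨0, h0⟩), by simp [wrel]⟩
    · exact ⟨(⟨0, h0⟩, ⟨0, h0⟩), (⟨0, h0⟩, ⟨1, h1⟩), by simp [wrel]⟩
    · exact ⟨(⟨0, h0⟩, ⟨0, h0⟩), (⟨1, h1⟩, ⟨0, h0⟩), by simp [wrel]⟩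
  diag := by
    intro x y
    unfold wrel
    by_cases h : x = y
    · simp [h]
    · by_cases h1 : x.1 = y.1 <;> simp [h, h1]
  symm := by
    intro x y
    unfold wrel
    simp only [eq_comm]
  p := wp n
  inter := inter_w n hn

lemma W_A (n : ℕ) (hn : 3 ≤ n) (i : Fin 3) : (W n hn).A i = Aw n i := rfl

lemma self_dual (n : ℕ) (hn : 3 ≤ n) : (W n hn).FormallySelfDual := by
  have hn0 : (n : ℂ) ≠ 0 := by
    have : n ≠ 0 := by omega
    exact_mod_cast this
  have h0 : (0 : ℕ) < n := by omega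
  have h1 : (1 : ℕ) < n := by omega
  have hcard : (Fintype.card (Pt n) : ℂ) = (n : ℂ) ^ 2 := by simp [sq]
  refine ⟨Equiv.refl _, ![((n : ℂ) ^ 2)⁻¹ • J (Pt n), (n : ℂ)⁻¹ • Bl n - ((n : ℂ) ^ 2)⁻¹ • J (Pt n),
    1 - (n : ℂ)⁻¹ • Bl n], !![1, (n : ℂ) - 1, (n : ℂ) * (n - 1); 1, (n : ℂ) - 1, -(n : ℂ);
    1, -1, 0], rfl, ?_, ?_, ?_, ?_, ?_, ?_⟩
  · rw [hcard]; rfl
  · intro i
    fin_cases i
    · intro h
      have := congrFun (congrFun h (⟨0, h0⟩, ⟨0, h0⟩)) (⟨0, h0⟩, ⟨0, h0⟩)
      simp [J, hn0] at this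
    · intro h
      have := congrFun (congrFun h (⟨0, h0⟩, ⟨0, h0⟩)) (⟨1, h1⟩, ⟨0, h0⟩)
      simp [J, Bl, hn0] at this
    · intro h
      have := congrFun (congrFun h (⟨0, h0⟩, ⟨0, h0⟩)) (⟨0, h0⟩, ⟨1, h1⟩)
      simp [Bl, hn0] at this
  · have e1 : (n : ℂ)⁻¹ * (n : ℂ)⁻¹ * n = (n : ℂ)⁻¹ := by field_simp
    intro i j
    fin_cases i <;> fin_cases j <;>
      simp only [Fin.zero_eta, Fin.mk_one, Fin.reduceFinMk, Matrix.cons_val_zero,
        Matrix.cons_val_one, Matrix.cons_val, sub_mul, mul_sub, one_mul, mul_one, Bl_mul_Bl,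
        Bl_mul_J, J_mul_Bl, J_mul_J, Matrix.smul_mul, Matrix.mul_smul, smul_smul, if_true,
        if_false, Fin.isValue, one_ne_zero, zero_ne_one, Fin.reduceEq] <;>
      (match_scalars <;> field_simp <;> ring)
  · rw [Fin.sum_univ_three]
    simp only [Matrix.cons_val_zero, Matrix.cons_val_one, Matrix.cons_val]
    module
  · intro i
    rw [Fin.sum_univ_three]
    fin_cases i <;>
      simp only [W_A, Aw0, Aw1, Aw2, Fin.zero_eta, Fin.mk_one, Fin.reduceFinMk,
        Matrix.cons_val_zero, Equiv.refl_apply, Matrix.of_apply, Matrix.cons_val', 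
        Matrix.cons_val_one, Matrix.cons_val, Fin.isValue] <;>
      (match_scalars <;> field_simp <;> ring)
  · intro i
    rw [Fin.sum_univ_three, hcard]
    fin_cases i <;>
      simp only [W_A, Aw0, Aw1, Aw2, Fin.zero_eta, Fin.mk_one, Fin.reduceFinMk,
        Matrix.cons_val_zero, Equiv.refl_apply, Matrix.of_apply, Matrix.cons_val',
        Matrix.cons_val_one, Matrix.cons_val, Fin.isValue] <;>
      (match_scalars <;> field_simp <;> ring)

lemma mem_gen (n : ℕ) (hn : 3 ≤ n) {L : Matrix (Pt n) (Pt n) ℂ} (hL : L ∈ (W n hn).BM) :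
    ∃ l : Fin 3 → ℂ, L = l 0 • 1 + l 1 • Bl n + l 2 • J (Pt n) := by
  obtain ⟨c, rfl⟩ := (Submodule.mem_span_range_iff_exists_fun ℂ).1 hL
  refine ⟨![c 0 - c 1, c 1 - c 2, c 2], ?_⟩
  rw [Fin.sum_univ_three]
  simp only [W_A, Aw0, Aw1, Aw2, Matrix.cons_val_zero, Matrix.cons_val_one, Matrix.cons_val]
  module

lemma Bl_mem (n : ℕ) (hn : 3 ≤ n) : Bl n ∈ (W n hn).BM := by
  have h : Bl n = (W n hn).A 0 + (W n hn).A 1 := by
    rw [W_A, W_A, Aw0, Aw1]; abel
  rw [h]
  exact Submodule.add_mem _ (Submodule.subset_span ⟨0, rfl⟩) (Submodule.subset_span ⟨1, rfl⟩)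

/-- the three generators of the algebra -/
def Gen (n : ℕ) : Fin 3 → Matrix (Pt n) (Pt n) ℂ := ![1, Bl n, J (Pt n)]

lemma Gen_mem (n : ℕ) (hn : 3 ≤ n) (i : Fin 3) : Gen n i ∈ (W n hn).BM := by
  fin_cases i
  · exact one_mem _
  · exact Bl_mem n hn
  · exact J_mem _

lemma exists_gen (n : ℕ) (hn : 3 ≤ n) {L : Matrix (Pt n) (Pt n) ℂ} (hL : L ∈ (W n hn).BM) :
    ∃ l : Fin 3 → ℂ, L = ∑ i, l i • Gen n i := by
  obtain ⟨l, rfl⟩ := mem_gen n hn hL
  exact ⟨l, by rw [Fin.sum_univ_three]; rfl⟩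

lemma delta_expand (n : ℕ) (l m k : Fin 3 → ℂ) :
    delta (∑ i, l i • Gen n i) (∑ i, m i • Gen n i) (∑ i, k i • Gen n i) =
      ∑ i, ∑ j, ∑ t, (l i * m j * k t) • delta (Gen n i) (Gen n j) (Gen n t) := by
  funext x y z
  simp only [delta, Fin.sum_univ_three, Matrix.add_apply, Matrix.smul_apply, smul_eq_mul,
    Pi.add_apply, Pi.smul_apply]
  ring

lemma star_expand (n : ℕ) (l m k : Fin 3 → ℂ) :
    star (∑ i, l i • Gen n i) (∑ i, m i • Gen n i) (∑ i, k i • Gen n i) =
      ∑ i, ∑ j, ∑ t, (l i * m j * k t) • star (Gen n i) (Gen n j) (Gen n t) := by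
  funext x y z
  have h : ∀ u, (∑ i, l i • Gen n i) x u * (∑ i, m i • Gen n i) y u * (∑ i, k i • Gen n i) z u =
      ∑ i, ∑ j, ∑ t, (l i * m j * k t) * (Gen n i x u * Gen n j y u * Gen n t z u) := by
    intro u
    simp only [Fin.sum_univ_three, Matrix.add_apply, Matrix.smul_apply, smul_eq_mul]
    ring
  show ∑ u, _ = _
  rw [Finset.sum_congr rfl fun u _ => h u]
  simp only [star, Finset.sum_apply, Pi.smul_apply, smul_eq_mul, Finset.mul_sum]
  rw [Finset.sum_comm]
  apply Finset.sum_congr rfl; intro i _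
  rw [Finset.sum_comm]
  apply Finset.sum_congr rfl; intro j _
  rw [Finset.sum_comm]

section general

variable {d : ℕ} (S : Scheme X d)

lemma star_in {L M N : Matrix X X ℂ} (hL : L ∈ S.BM) (hM : M ∈ S.BM) (hN : N ∈ S.BM) :
    star L M N ∈ S.Star := Submodule.subset_span ⟨L, hL, M, hM, N, hN, rfl⟩

lemma delta_in {L M N : Matrix X X ℂ} (hL : L ∈ S.BM) (hM : M ∈ S.BM) (hN : N ∈ S.BM) :
    delta L M N ∈ S.Delta := Submodule.subset_span ⟨L, hL, M, hM, N, hN, rfl⟩

lemma delta_J1 {M N : Matrix X X ℂ} (hN : ∀ x y, N x y = N y x) :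
    delta (J X) M N = star M 1 N := by
  funext x y z
  simp [delta, star, J, Matrix.one_apply, hN z y]

lemma delta_J2 {L N : Matrix X X ℂ} : delta L (J X) N = star L N 1 := by
  funext x y z
  simp [delta, star, J, Matrix.one_apply]

lemma delta_J3 {L M : Matrix X X ℂ} (hL : ∀ x y, L x y = L y x) (hM : ∀ x y, M x y = M y x) :
    delta L M (J X) = star 1 M L := by
  funext x y z
  simp [delta, star, J, Matrix.one_apply, hL z x, hM y x, mul_comm]

end general

lemma Bl_symm (n : ℕ) (x y : Pt n) : Bl n x y = Bl n y x := by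
  simp only [Bl, eq_comm]

lemma one_symm (n : ℕ) (x y : Pt n) : (1 : Matrix (Pt n) (Pt n) ℂ) x y = (1 : Matrix (Pt n) (Pt n) ℂ) y x := by
  simp only [Matrix.one_apply, eq_comm]

lemma J_symm (n : ℕ) (x y : Pt n) : J (Pt n) x y = J (Pt n) y x := rfl

lemma star_BBB (n : ℕ) : star (Bl n) (Bl n) (Bl n) = (n : ℂ) • delta (Bl n) (Bl n) (Bl n) := by
  funext x y z
  simp only [star, delta, Pi.smul_apply, smul_eq_mul]
  rw [Fintype.sum_prod_type]
  have h : ∀ i : Fin n, ∑ j : Fin n, Bl n x (i, j) * Bl n y (i, j) * Bl n z (i, j) =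
      if x.1 = i then (if y.1 = i then (if z.1 = i then (n : ℂ) else 0) else 0) else 0 := by
    intro i
    unfold Bl
    simp only
    split_ifs <;> simp
  rw [Finset.sum_congr rfl fun i _ => h i]
  simp only [Finset.sum_ite_eq, Finset.mem_univ, if_true]
  unfold Bl
  by_cases h1 : x.1 = z.1 <;> by_cases h2 : x.1 = y.1
  · simp [← h1, ← h2]
  · have : y.1 ≠ x.1 := Ne.symm h2
    simp [h2, this]
  · have h3 : z.1 ≠ x.1 := Ne.symm h1
    simp [h1, ← h2, h3]
  · have : y.1 ≠ x.1 := Ne.symm h2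
    simp [h2, this]

lemma star_BBJ (n : ℕ) : star (Bl n) (Bl n) (J (Pt n)) =
    (n : ℂ) • delta (J (Pt n)) (Bl n) (J (Pt n)) := by
  funext x y z
  have := congrFun (congrFun (Bl_mul_Bl n) x) y
  rw [Matrix.mul_apply] at this
  simp only [star, delta, J, mul_one, one_mul, Pi.smul_apply, smul_eq_mul]
  rw [← smul_eq_mul, ← Matrix.smul_apply, ← this]
  apply Finset.sum_congr rfl
  intro u _
  rw [Bl_symm n y u]

lemma star_BJB (n : ℕ) : star (Bl n) (J (Pt n)) (Bl n) =
    (n : ℂ) • delta (Bl n) (J (Pt n)) (J (Pt n)) := by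
  funext x y z
  have := congrFun (congrFun (Bl_mul_Bl n) x) z
  rw [Matrix.mul_apply] at this
  simp only [star, delta, J, mul_one, Pi.smul_apply, smul_eq_mul]
  rw [← smul_eq_mul, ← Matrix.smul_apply, ← this]
  apply Finset.sum_congr rfl
  intro u _
  rw [Bl_symm n z u]

lemma star_JBB (n : ℕ) : star (J (Pt n)) (Bl n) (Bl n) =
    (n : ℂ) • delta (J (Pt n)) (J (Pt n)) (Bl n) := by
  funext x y z
  have := congrFun (congrFun (Bl_mul_Bl n) y) z
  rw [Matrix.mul_apply] at this
  simp only [star, delta, J, one_mul, Pi.smul_apply, smul_eq_mul]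
  rw [← smul_eq_mul, ← Matrix.smul_apply, ← this]
  apply Finset.sum_congr rfl
  intro u _
  rw [Bl_symm n z u]

lemma sum_Bl (n : ℕ) (x : Pt n) : ∑ u, Bl n x u = n := by
  have := congrFun (congrFun (Bl_mul_J n) x) x
  rw [Matrix.mul_apply] at this
  simpa [J] using this

lemma triply (n : ℕ) (hn : 3 ≤ n) : (W n hn).ExactlyTriplyRegular := by
  have hn0 : (n : ℂ) ≠ 0 := by
    have : n ≠ 0 := by omega
    exact_mod_cast this
  have h1 := one_mem (W n hn)
  have hB := Bl_mem n hn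
  have hJ := J_mem (W n hn)
  have sB := Bl_symm n
  have s1 := one_symm n
  have sJ := J_symm n
  apply le_antisymm
  · apply Submodule.span_le.2
    rintro T ⟨L, hL, M, hM, N, hN, rfl⟩
    obtain ⟨l, rfl⟩ := exists_gen n hn hL
    obtain ⟨m, rfl⟩ := exists_gen n hn hM
    obtain ⟨k, rfl⟩ := exists_gen n hn hN
    rw [SetLike.mem_coe, delta_expand]
    refine Submodule.sum_mem _ fun i _ => Submodule.sum_mem _ fun j _ =>
      Submodule.sum_mem _ fun t _ => Submodule.smul_mem _ _ ?_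
    -- the generators
    have g1 : ∀ M N : Matrix (Pt n) (Pt n) ℂ, (∃ K ∈ (W n hn).BM, ∀ x y, M x y * N x y = K x y) →
        (∀ x y, M x y = M y x) → (∀ x y, N x y = N y x) → delta 1 M N ∈ (W n hn).Star := by
      rintro M N ⟨K, hK, hMN⟩ hM hN
      have : delta 1 M N = star 1 K 1 := by
        funext x y z
        by_cases h : x = z
        · subst h
          simp [delta, star, Matrix.one_apply, ← hMN, hM x y]
        · simp [delta, star, Matrix.one_apply, h]
      rw [this]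
      exact star_in _ h1 hK h1
    have g2 : ∀ L N : Matrix (Pt n) (Pt n) ℂ, (∃ K ∈ (W n hn).BM, ∀ x y, L x y * N x y = K x y) →
        (∀ x y, L x y = L y x) → (∀ x y, N x y = N y x) → delta L 1 N ∈ (W n hn).Star := by
      rintro L N ⟨K, hK, hLN⟩ hL hN
      have : delta L 1 N = star 1 1 K := by
        funext x y z
        by_cases h : x = y
        · subst h
          simp [delta, star, Matrix.one_apply, ← hLN, hL x z, hN x z]
        · simp [delta, star, Matrix.one_apply, h]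
      rw [this]
      exact star_in _ h1 h1 hK
    have g3 : ∀ L M : Matrix (Pt n) (Pt n) ℂ, (∃ K ∈ (W n hn).BM, ∀ x y, L x y * M x y = K x y) →
        delta L M 1 ∈ (W n hn).Star := by
      rintro L M ⟨K, hK, hLM⟩
      have : delta L M 1 = star K 1 1 := by
        funext x y z
        by_cases h : y = z
        · subst h
          simp [delta, star, Matrix.one_apply, ← hLM]
        · simp [delta, star, Matrix.one_apply, h]
      rw [this]
      exact star_in _ hK h1 h1
    have h11 : ∃ K ∈ (W n hn).BM, ∀ x y, (1 : Matrix (Pt n) (Pt n) ℂ) x y * (1 : Matrix (Pt n) (Pt n) ℂ) x y = K x y :=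
      ⟨1, h1, fun x y => by by_cases h : x = y <;> simp [Matrix.one_apply, h]⟩
    have h1B : ∃ K ∈ (W n hn).BM, ∀ x y, (1 : Matrix (Pt n) (Pt n) ℂ) x y * Bl n x y = K x y :=
      ⟨1, h1, fun x y => by by_cases h : x = y <;> simp [Matrix.one_apply, Bl, h]⟩
    have hB1 : ∃ K ∈ (W n hn).BM, ∀ x y, Bl n x y * (1 : Matrix (Pt n) (Pt n) ℂ) x y = K x y :=
      ⟨1, h1, fun x y => by by_cases h : x = y <;> simp [Matrix.one_apply, Bl, h]⟩
    have hBB : ∃ K ∈ (W n hn).BM, ∀ x y, Bl n x y * Bl n x y = K x y :=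
      ⟨Bl n, hB, fun x y => by by_cases h : x.1 = y.1 <;> simp [Bl, h]⟩
    have hBBB : delta (Bl n) (Bl n) (Bl n) ∈ (W n hn).Star := by
      have : delta (Bl n) (Bl n) (Bl n) = (n : ℂ)⁻¹ • star (Bl n) (Bl n) (Bl n) := by
        rw [star_BBB, smul_smul, inv_mul_cancel₀ hn0, one_smul]
      rw [this]
      exact Submodule.smul_mem _ _ (star_in _ hB hB hB)
    have j1 : ∀ M N : Matrix (Pt n) (Pt n) ℂ, M ∈ (W n hn).BM → N ∈ (W n hn).BM →
        (∀ x y, N x y = N y x) → delta (J (Pt n)) M N ∈ (W n hn).Star := by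
      intro M N hM hN sN
      rw [delta_J1 sN]
      exact star_in _ hM h1 hN
    have j2 : ∀ L N : Matrix (Pt n) (Pt n) ℂ, L ∈ (W n hn).BM → N ∈ (W n hn).BM →
        delta L (J (Pt n)) N ∈ (W n hn).Star := by
      intro L N hL hN
      rw [delta_J2]
      exact star_in _ hL hN h1
    have j3 : ∀ L M : Matrix (Pt n) (Pt n) ℂ, L ∈ (W n hn).BM → M ∈ (W n hn).BM →
        (∀ x y, L x y = L y x) → (∀ x y, M x y = M y x) →
        delta L M (J (Pt n)) ∈ (W n hn).Star := by
      intro L M hL hM sL sM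
      rw [delta_J3 sL sM]
      exact star_in _ h1 hM hL
    fin_cases i <;> fin_cases j <;> fin_cases t
    · exact g1 _ _ h11 s1 s1
    · exact g1 _ _ h1B s1 sB
    · exact j3 _ _ h1 h1 s1 s1
    · exact g1 _ _ hB1 sB s1
    · exact g1 _ _ hBB sB sB
    · exact j3 _ _ h1 hB s1 sB
    · exact j2 _ _ h1 h1
    · exact j2 _ _ h1 hB
    · exact j2 _ _ h1 hJ
    · exact g2 _ _ hB1 sB s1
    · exact g2 _ _ hBB sB sB
    · exact j3 _ _ hB h1 sB s1
    · exact g3 _ _ hBB
    · exact hBBB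
    · exact j3 _ _ hB hB sB sB
    · exact j2 _ _ hB h1
    · exact j2 _ _ hB hB
    · exact j2 _ _ hB hJ
    · exact j1 _ _ h1 h1 s1
    · exact j1 _ _ h1 hB sB
    · exact j1 _ _ h1 hJ sJ
    · exact j1 _ _ hB h1 s1
    · exact j1 _ _ hB hB sB
    · exact j1 _ _ hB hJ sJ
    · exact j1 _ _ hJ h1 s1
    · exact j1 _ _ hJ hB sB
    · exact j1 _ _ hJ hJ sJ
  · apply Submodule.span_le.2
    rintro T ⟨L, hL, M, hM, N, hN, rfl⟩
    obtain ⟨l, rfl⟩ := exists_gen n hn hL
    obtain ⟨m, rfl⟩ := exists_gen n hn hM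
    obtain ⟨k, rfl⟩ := exists_gen n hn hN
    rw [SetLike.mem_coe, star_expand]
    refine Submodule.sum_mem _ fun i _ => Submodule.sum_mem _ fun j _ =>
      Submodule.sum_mem _ fun t _ => Submodule.smul_mem _ _ ?_
    have k1 : ∀ M N : Matrix (Pt n) (Pt n) ℂ, M ∈ (W n hn).BM → N ∈ (W n hn).BM →
        (∀ x y, M x y = M y x) → (∀ x y, N x y = N y x) → star 1 M N ∈ (W n hn).Delta := by
      intro M N hM hN sM sN
      rw [← delta_J3 sN sM]
      exact delta_in _ hN hM hJ
    have k2 : ∀ L N : Matrix (Pt n) (Pt n) ℂ, L ∈ (W n hn).BM → N ∈ (W n hn).BM →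
        (∀ x y, N x y = N y x) → star L 1 N ∈ (W n hn).Delta := by
      intro L N hL hN sN
      rw [← delta_J1 sN]
      exact delta_in _ hJ hL hN
    have k3 : ∀ L M : Matrix (Pt n) (Pt n) ℂ, L ∈ (W n hn).BM → M ∈ (W n hn).BM →
        star L M 1 ∈ (W n hn).Delta := by
      intro L M hL hM
      rw [← delta_J2]
      exact delta_in _ hL hJ hM
    have jjj : ∀ c : ℂ, (fun _ _ _ => c : Pt n → Pt n → Pt n → ℂ) ∈ (W n hn).Delta := by
      intro c
      have : (fun _ _ _ => c : Pt n → Pt n → Pt n → ℂ) = c • delta (J (Pt n)) (J (Pt n)) (J (Pt n)) := by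
        funext x y z
        simp [delta, J]
      rw [this]
      exact Submodule.smul_mem _ _ (delta_in _ hJ hJ hJ)
    fin_cases i <;> fin_cases j <;> fin_cases t
    · exact k1 _ _ h1 h1 s1 s1
    · exact k1 _ _ h1 hB s1 sB
    · exact k1 _ _ h1 hJ s1 sJ
    · exact k1 _ _ hB h1 sB s1
    · exact k1 _ _ hB hB sB sB
    · exact k1 _ _ hB hJ sB sJ
    · exact k1 _ _ hJ h1 sJ s1
    · exact k1 _ _ hJ hB sJ sB
    · exact k1 _ _ hJ hJ sJ sJ
    · exact k2 _ _ hB h1 s1
    · exact k2 _ _ hB hB sB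
    · exact k2 _ _ hB hJ sJ
    · exact k3 _ _ hB hB
    · exact (star_BBB n) ▸ Submodule.smul_mem _ _ (delta_in _ hB hB hB)
    · exact (star_BBJ n) ▸ Submodule.smul_mem _ _ (delta_in _ hJ hB hJ)
    · exact k3 _ _ hB hJ
    · exact (star_BJB n) ▸ Submodule.smul_mem _ _ (delta_in _ hB hJ hJ)
    · have : star (Bl n) (J (Pt n)) (J (Pt n)) = fun _ _ _ => (n : ℂ) := by
        funext x y z
        simp only [star, J, mul_one]
        exact sum_Bl n x
      exact this ▸ jjj _
    · exact k2 _ _ hJ h1 s1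
    · exact k2 _ _ hJ hB sB
    · exact k2 _ _ hJ hJ sJ
    · exact k3 _ _ hJ hB
    · exact (star_JBB n) ▸ Submodule.smul_mem _ _ (delta_in _ hJ hJ hB)
    · have : star (J (Pt n)) (Bl n) (J (Pt n)) = fun _ _ _ => (n : ℂ) := by
        funext x y z
        simp only [star, J, mul_one, one_mul]
        exact sum_Bl n y
      exact this ▸ jjj _
    · exact k3 _ _ hJ hJ
    · have : star (J (Pt n)) (J (Pt n)) (Bl n) = fun _ _ _ => (n : ℂ) := by
        funext x y z
        simp only [star, J, one_mul]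
        exact sum_Bl n z
      exact this ▸ jjj _
    · have : star (J (Pt n)) (J (Pt n)) (J (Pt n)) = fun _ _ _ => (Fintype.card (Pt n) : ℂ) := by
        funext x y z
        simp [star, J]
      exact this ▸ jjj _

lemma wrel_congr (n : ℕ) (i j k : Fin n) (x : Pt n) (h1 : x ≠ (i, j)) (h2 : x ≠ (i, k)) :
    wrel n (i, j) x = wrel n (i, k) x := by
  have h1' : (i, j) ≠ x := Ne.symm h1
  have h2' : (i, k) ≠ x := Ne.symm h2
  unfold wrel
  rw [if_neg h1', if_neg h2']

/-- Every spin model in the Bose–Mesner algebra of `K_n ≀ K_n`, `n ≥ 3`, is a Potts model. -/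
theorem spin_potts (n : ℕ) (hn : 3 ≤ n) {M : Matrix (Pt n) (Pt n) ℂ} (hM : M ∈ (W n hn).BM)
    (hs : IsSpinModel M) : ∃ α β : ℂ, α ≠ 0 ∧ M = α • 1 + β • J (Pt n) := by
  obtain ⟨t, ht⟩ := (Submodule.mem_span_range_iff_exists_fun ℂ).1 hM
  have hv : ∀ x y, M x y = t (wrel n x y) := by
    intro x y
    rw [← ht, Matrix.sum_apply]
    simp only [W_A, Matrix.smul_apply, Aw, smul_eq_mul, mul_ite, mul_one, mul_zero]
    simp
  obtain ⟨-, hne, hII, D, -, hIII⟩ := hs
  have l0 : 0 < n := by omega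
  have l1 : 1 < n := by omega
  have l2 : 2 < n := by omega
  set a : Pt n := (⟨0, l0⟩, ⟨0, l0⟩) with ha
  set b : Pt n := (⟨0, l0⟩, ⟨1, l1⟩) with hb
  set c : Pt n := (⟨0, l0⟩, ⟨2, l2⟩) with hc
  set o : Pt n := (⟨1, l1⟩, ⟨0, l0⟩) with ho
  have hab : a ≠ b := by simp [ha, hb]
  have hbc : b ≠ c := by simp [hb, hc]
  have hac : a ≠ c := by simp [ha, hc]
  have rr : ∀ x, wrel n x x = 0 := fun x => by simp [wrel]
  have rab : wrel n a b = 1 := by simp [wrel, ha, hb]
  have rba : wrel n b a = 1 := by simp [wrel, ha, hb]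
  have rac : wrel n a c = 1 := by simp [wrel, ha, hc]
  have rbc : wrel n b c = 1 := by simp [wrel, hb, hc]
  have rcb : wrel n c b = 1 := by simp [wrel, hb, hc]
  have rao : wrel n a o = 2 := by simp [wrel, ha, ho]
  have rbo : wrel n b o = 2 := by simp [wrel, hb, ho]
  have roa : wrel n o a = 2 := by simp [wrel, ha, ho]
  have rob : wrel n o b = 2 := by simp [wrel, hb, ho]
  have t0 : t 0 ≠ 0 := by have := hne a a; rwa [hv, rr] at this
  have t1 : t 1 ≠ 0 := by have := hne a b; rwa [hv, rab] at this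
  have t2 : t 2 ≠ 0 := by have := hne a o; rwa [hv, rao] at this
  have eab : ∀ x, x ≠ a → x ≠ b → M a x = M b x := by
    intro x h1 h2
    rw [hv, hv, wrel_congr n _ _ _ x h1 h2]
  have ebc : ∀ x, x ≠ b → x ≠ c → M b x = M c x := by
    intro x h1 h2
    rw [hv, hv, wrel_congr n _ _ _ x h1 h2]
  -- the first two values are different
  have h01 : t 0 ≠ t 1 := by
    intro h
    have h2 := hII a b
    rw [if_neg hab] at h2
    have h3 : ∀ x, M a x / M b x = 1 := by
      intro x
      by_cases hx1 : x = a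
      · rw [hx1, hv, hv, rr, rba, h, div_self t1]
      · by_cases hx2 : x = b
        · rw [hx2, hv, hv, rr, rab, h, div_self t1]
        · rw [eab x hx1 hx2, div_self (hne _ _)]
    rw [Finset.sum_congr rfl fun x _ => h3 x] at h2
    simp only [Finset.sum_const, Finset.card_univ, nsmul_eq_mul, mul_one] at h2
    have : Fintype.card (Pt n) ≠ 0 := by
      rw [Fintype.card_prod, Fintype.card_fin]
      exact Nat.mul_ne_zero (by omega) (by omega)
    exact this (by exact_mod_cast h2)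
  have h01' : t 0 - t 1 ≠ 0 := sub_ne_zero.2 h01
  -- first difference
  have d1 : (t 0 - t 1) * t 1 = D := by
    have e1 := hIII a b c
    have e2 := hIII a c c
    have e3 : ∑ x, (M a x * M b x / M c x - M a x * M c x / M c x) =
        D * (M a b / (M a c * M b c)) - D * (M a c / (M a c * M c c)) := by
      rw [Finset.sum_sub_distrib, e1, e2]
    rw [Fintype.sum_eq_add b c hbc] at e3
    · simp only [hv, rr, rab, rac, rbc, rcb] at e3
      field_simp at e3
      apply mul_left_cancel₀ h01'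
      linear_combination e3
    · rintro x ⟨h1, h2⟩
      rw [ebc x h1 h2, sub_self]
  have d2 : (t 0 - t 1) * t 2 = D := by
    have e1 := hIII a a o
    have e2 := hIII a b o
    have e3 : ∑ x, (M a x * M a x / M o x - M a x * M b x / M o x) =
        D * (M a a / (M a o * M a o)) - D * (M a b / (M a o * M b o)) := by
      rw [Finset.sum_sub_distrib, e1, e2]
    rw [Fintype.sum_eq_add a b hab] at e3
    · simp only [hv, rr, rab, rba, rao, rbo, roa, rob] at e3
      field_simp at e3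
      apply mul_left_cancel₀ h01'
      linear_combination e3
    · rintro x ⟨h1, h2⟩
      rw [eab x h1 h2, sub_self]
  have h12 : t 1 = t 2 := mul_left_cancel₀ h01' (d1.trans d2.symm)
  refine ⟨t 0 - t 1, t 1, h01', ?_⟩
  rw [← ht, Fin.sum_univ_three]
  simp only [W_A, Aw0, Aw1, Aw2, ← h12]
  module

/-- The Nomura algebra of a spin model in the Bose–Mesner algebra of `K_n ≀ K_n`, `n ≥ 3`, does
not contain the Bose–Mesner algebra. -/
theorem not_nomura (n : ℕ) (hn : 3 ≤ n) {M : Matrix (Pt n) (Pt n) ℂ} (hM : M ∈ (W n hn).BM)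
    (hs : IsSpinModel M) : (W n hn).A 1 ∉ Nomura M := by
  obtain ⟨α, β, hα, rfl⟩ := spin_potts n hn hM hs
  intro hN
  obtain ⟨-, hne, -⟩ := hs
  have l0 : 0 < n := by omega
  have l1 : 1 < n := by omega
  have l2 : 2 < n := by omega
  set b : Pt n := (⟨0, l0⟩, ⟨0, l0⟩) with hb
  set c : Pt n := (⟨1, l1⟩, ⟨0, l0⟩) with hc
  set p : Pt n := (⟨0, l0⟩, ⟨1, l1⟩) with hp
  set q : Pt n := (⟨2, l2⟩, ⟨0, l0⟩) with hq
  obtain ⟨μ, hμ⟩ := hN b c
  have hv : ∀ x y : Pt n, (α • (1 : Matrix (Pt n) (Pt n) ℂ) + β • J (Pt n)) x y =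
      (if x = y then α else 0) + β := by
    intro x y
    by_cases h : x = y <;> simp [J, h]
  have hbc : b ≠ c := by simp [hb, hc]
  have hβ : β ≠ 0 := by
    have := hne b c
    rwa [hv, if_neg hbc, zero_add] at this
  have hf : ∀ x, x ≠ b → x ≠ c → (α • (1 : Matrix (Pt n) (Pt n) ℂ) + β • J (Pt n)) x b /
      (α • (1 : Matrix (Pt n) (Pt n) ℂ) + β • J (Pt n)) x c = 1 := by
    intro x h1 h2
    rw [hv, hv, if_neg h1, if_neg h2, zero_add, div_self hβ]
  have hfb : (α • (1 : Matrix (Pt n) (Pt n) ℂ) + β • J (Pt n)) b b /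
      (α • (1 : Matrix (Pt n) (Pt n) ℂ) + β • J (Pt n)) b c = (α + β) / β := by
    rw [hv, hv, if_pos rfl, if_neg hbc, zero_add]
  have hrow : ∀ x, ∑ y, Aw n 1 x y = (n : ℂ) - 1 := by
    intro x
    rw [Aw1]
    simp only [Matrix.sub_apply, Finset.sum_sub_distrib, sum_Bl]
    simp [Matrix.one_apply]
  have hp1 := congrFun hμ p
  have hq1 := congrFun hμ q
  rw [Pi.smul_apply, hf p (by simp [hb, hp]) (by simp [hc, hp])] at hp1
  rw [Pi.smul_apply, hf q (by simp [hb, hq]) (by simp [hc, hq])] at hq1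
  have mv : ∀ (f : Pt n → ℂ) (x : Pt n), ((W n hn).A 1).mulVec f x = ∑ y, Aw n 1 x y * f y :=
    fun f x => rfl
  rw [mv] at hp1 hq1
  have hq2 : ∑ y, Aw n 1 q y * ((α • (1 : Matrix (Pt n) (Pt n) ℂ) + β • J (Pt n)) y b /
      (α • (1 : Matrix (Pt n) (Pt n) ℂ) + β • J (Pt n)) y c) = (n : ℂ) - 1 := by
    rw [← hrow q]
    apply Finset.sum_congr rfl
    intro y _
    by_cases h1 : y = b
    · rw [h1]
      have : Aw n 1 q b = 0 := by simp [Aw, wrel, hb, hq]
      rw [this, zero_mul]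
    · by_cases h2 : y = c
      · rw [h2]
        have : Aw n 1 q c = 0 := by simp [Aw, wrel, hc, hq]
        rw [this, zero_mul]
      · rw [hf y h1 h2, mul_one]
  have hp2 : ∑ y, Aw n 1 p y * ((α • (1 : Matrix (Pt n) (Pt n) ℂ) + β • J (Pt n)) y b /
      (α • (1 : Matrix (Pt n) (Pt n) ℂ) + β • J (Pt n)) y c) = (n : ℂ) - 1 + α / β := by
    have key : ∑ y, Aw n 1 p y * ((α • (1 : Matrix (Pt n) (Pt n) ℂ) + β • J (Pt n)) y b /
      (α • (1 : Matrix (Pt n) (Pt n) ℂ) + β • J (Pt n)) y c - 1) = α / β := by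
      rw [Finset.sum_eq_single b]
      · have : Aw n 1 p b = 1 := by simp [Aw, wrel, hb, hp]
        rw [this, hfb]
        field_simp
        ring
      · intro y _ h1
        by_cases h2 : y = c
        · rw [h2]
          have : Aw n 1 p c = 0 := by simp [Aw, wrel, hc, hp]
          rw [this, zero_mul]
        · rw [hf y h1 h2, sub_self, mul_zero]
      · intro h
        exact absurd (Finset.mem_univ _) h
    rw [← hrow p, ← key, ← Finset.sum_add_distrib]
    apply Finset.sum_congr rfl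
    intro y _
    ring
  rw [hp2] at hp1
  rw [hq2] at hq1
  have h1 : α / β = 0 := by
    have := hp1.trans hq1.symm
    linear_combination this
  rw [div_eq_zero_iff] at h1
  rcases h1 with h1 | h1
  · exact hα h1
  · exact hβ h1

end wreath

/-- **Spin models in Bose–Mesner algebras.**
1. The Bose–Mesner algebra of every symmetric association scheme contains a spin model, in the
   span of `I` and `J`.
2. For every `n ≥ 3` there is a formally self-dual, exactly triply regular symmetric association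
   scheme with two classes on `n ^ 2` points such that every spin model in its Bose–Mesner algebra
   lies in the span of `I` and `J` (so it does not generate the Bose–Mesner algebra) and its
   Nomura algebra does not contain the Bose–Mesner algebra. -/
theorem result :
    (∀ (X : Type) [Fintype X] [DecidableEq X] [Nonempty X] (d : ℕ) (S : Scheme X d),
      ∃ M ∈ S.BM, IsSpinModel M ∧ ∃ α β : ℂ, M = α • 1 + β • J X) ∧
    (∀ n : ℕ, 3 ≤ n → ∃ S : Scheme (Fin n × Fin n) 2,
      S.FormallySelfDual ∧ S.ExactlyTriplyRegular ∧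
      ∀ M ∈ S.BM, IsSpinModel M →
        (∃ α β : ℂ, M = α • 1 + β • J (Fin n × Fin n)) ∧ ∃ L ∈ S.BM, L ∉ Nomura M) := by
  constructor
  · intro X _ _ _ d S
    obtain ⟨α, β, h⟩ := potts (X := X)
    exact ⟨_, Submodule.add_mem _ (Submodule.smul_mem _ _ (one_mem S))
      (Submodule.smul_mem _ _ (J_mem S)), h, α, β, rfl⟩
  · intro n hn
    refine ⟨W n hn, self_dual n hn, triply n hn, ?_⟩
    intro M hM hs
    obtain ⟨α, β, -, h⟩ := spin_potts n hn hM hs
    exact ⟨⟨α, β, h⟩, (W n hn).A 1, Submodule.subset_span ⟨1, rfl⟩, not_nomura n hn hM hs⟩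

end Pool.Agent.Results.MP_a35cac_co.PottsAndWreath
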